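import Pool.Agent.helper60.XP.SpecT

set_option autoImplicit false

open Complex Metric Set Filter Topology MeasureTheory
open V3S (UF)
open XP

noncomputable section

namespace XPT

theorem CTS (hSTS : STS_stmt) (hSTC : STC_stmt) (hKCB : KCB_stmt) (hPHC : PHC_stmt)
    (hTAX : TAX_stmt) : CTS_stmt := by
  intro c CK C₂ C₃ r hC₂ hC₃ hr
  have hC1 : C₃ ≤ max C₃ (max (2 * C₂ * C₃) (CK * c * C₂ / (1 / 2))) := le_max_left _ _
  have hC2 : 2 * C₂ * C₃ ≤ max C₃ (max (2 * C₂ * C₃) (CK * c * C₂ / (1 / 2))) :=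
    le_trans (le_max_left _ _) (le_max_right _ _)
  have hC3 : CK * c * C₂ / (1 / 2) ≤ max C₃ (max (2 * C₂ * C₃) (CK * c * C₂ / (1 / 2))) :=
    le_trans (le_max_right _ _) (le_max_right _ _)
  refine ⟨max C₃ (max (2 * C₂ * C₃) (CK * c * C₂ / (1 / 2))), lt_of_lt_of_le hC₃ hC1, ?_⟩
  generalize max C₃ (max (2 * C₂ * C₃) (CK * c * C₂ / (1 / 2))) = C' at hC1 hC2 hC3 ⊢
  intro n C A D hG hD x₀ ρ τ₀ ε₁ χ Ψ hρ hSt hsg hder hΨ hε hde hτ hom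
  obtain ⟨hLev, hEq, -, -, -⟩ := hSTS n C A c CK D hG hD x₀ ρ r χ Ψ hSt
  obtain ⟨hs, -⟩ := hSTC n C A c CK D hG hD x₀ ρ r χ Ψ hSt
  have hx₀ : x₀ ∈ ball x₀ ρ := mem_ball_self hρ
  have hε₁ : 0 ≤ ε₁ := le_trans (norm_nonneg _) (hΨ x₀ hx₀)
  have hτ₀ : 0 ≤ τ₀ := le_trans (norm_nonneg _) (hτ x₀ hx₀)
  have hE : 0 ≤ D.E := hG.eng.E0
  have hNE : 0 ≤ (D.N : ℝ) * D.E / (Real.pi * r ^ 2) := by
    have := Real.pi_pos
    positivity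
  have hom0 : 0 ≤ D.om := by
    have h1 : 0 ≤ C₃ * D.om := by linarith
    exact nonneg_of_mul_nonneg_right h1 hC₃
  have hde0 : 0 ≤ D.de := by
    have h1 : 0 ≤ C₃ * D.de := by linarith
    exact nonneg_of_mul_nonneg_right h1 hC₃
  have h1 : ∀ w ∈ ball (0 : ℂ) (2 * r), 1 - ‖XPS.tau D.H (tw D Ψ χ) D.K w‖ ≤ τ₀ := by
    intro w hw
    rw [hTAX n C A c D hG x₀ ρ r χ Ψ hSt w hw]
    have h2 := hτ (D.xx (χ w)) (hSt.mp w hw)
    have h3 := norm_sub_norm_le (1 : ℂ)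
      (deriv Ψ (D.xx (χ w)) ^ 2 * D.B (Ψ (D.xx (χ w))) / D.B (D.xx (χ w)))
    rw [norm_one, norm_sub_rev] at h3
    linarith
  have hsum := hs τ₀ h1
  obtain ⟨Φ, hΦd, hΦ⟩ := hPHC n C A c D hG x₀ ρ r χ Ψ hSt C₂ ε₁ hC₂ hε₁ hsg hε hΨ
  have hk := hKCB n C A c CK D hG hD x₀ ρ r χ Ψ hSt (1 / 2) C₂ (by norm_num) hC₂ hρ hder hsg
  have hsub : ball (0 : ℂ) r ⊆ ball (0 : ℂ) (2 * r) := ball_subset_ball (by linarith)
  refine ⟨Φ, ?_⟩
  refine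
    { nat := hSt.nat
      val := hSt.val
      aff := hSt.aff
      lev := ?_
      g0 := hEq.mono hsub
      sum := ?_
      phd := hΦd
      phi := ?_
      kc := ?_ }
  · refine ⟨⟨hLev.nat0.diff.mono hsub, fun w hw => hLev.nat0.av w (hsub hw),
      fun w hw => hLev.nat0.eq w (hsub hw)⟩, fun q hq => (hLev.diff q hq).mono hsub,
      fun q hq w hw => hLev.rel q hq w (hsub hw)⟩
  · intro w hw
    calc _ ≤ τ₀ + D.N * D.E / (Real.pi * r ^ 2) := hsum w hw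
      _ ≤ C₃ * D.om := hom
      _ ≤ C' * D.om := mul_le_mul_of_nonneg_right hC1 hom0
  · intro w hw
    obtain ⟨h2, h3, h4⟩ := hΦ w hw
    refine ⟨h2, ?_, h4⟩
    calc ‖Φ w - w‖ ≤ 2 * C₂ * ε₁ := h3
      _ ≤ 2 * C₂ * (C₃ * D.de) := mul_le_mul_of_nonneg_left hde (by linarith)
      _ = 2 * C₂ * C₃ * D.de := by ring
      _ ≤ C' * D.de := mul_le_mul_of_nonneg_right hC2 hde0
  · intro q hq1 hq2
    exact le_trans (hk q hq1 hq2) (mul_le_mul_of_nonneg_right hC3 (norm_nonneg _))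

end XPT
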