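import Pool.Agent.helper54.XP.SpecG

/-!
# Project xp: (MP_af9036_an, MP_70a088_an): VLM, the limit of `v` (case `ζ = 1`)
-/

set_option autoImplicit false

open Complex Metric Set Filter Topology MeasureTheory XP
open V3S (UF)

noncomputable section

namespace XPG

/-- `(exp z - 1)/z → 1`. -/
theorem VLM_exp (z : ℕ → ℂ) (h0 : ∀ m, z m ≠ 0) (hz : Tendsto z UF (𝓝 0)) :
    Tendsto (fun m => (Complex.exp (z m) - 1) / z m) UF (𝓝 1) := by
  have h1 : HasDerivAt Complex.exp 1 0 := by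
    have h := Complex.hasDerivAt_exp 0
    rwa [Complex.exp_zero] at h
  have h2 := hasDerivAt_iff_tendsto_slope.mp h1
  have h3 : Tendsto z UF (𝓝[≠] 0) :=
    tendsto_nhdsWithin_iff.mpr ⟨hz, Eventually.of_forall fun m => h0 m⟩
  refine (h2.comp h3).congr fun m => ?_
  rw [Function.comp_apply, slope_def_field, Complex.exp_zero, sub_zero]

/-- `v` is bounded on bounded sets. -/
theorem VLM_bd (hDSP : XPL.DSP_stmt) (n : ℕ) (C C' C'' : ℝ) (D : ℕ → Dat) (hS : HG n C C' C'' D) (ρ : ℝ)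
    (hρ : 0 < ρ) : ∃ C₁ : ℝ, ∀ᶠ m in UF, ∀ x ∈ ball (0 : ℂ) ρ, ‖(D m).v x‖ ≤ C₁ := by
  obtain ⟨C₁, -, h⟩ := hDSP n C D hS.hl hS.st ρ hρ
  refine ⟨C₁ * C'', h.mono fun m hm x hx => ?_⟩
  have h1 := hm x hx
  rw [hS.hK m, hS.pa.de m] at h1
  have h0 : (D m).lam ≠ 0 := by
    intro h
    have h2 := (hS.sa.ga m).lam0
    rw [h] at h2
    exact lt_irrefl 0 h2
  have h3 : 0 < ‖(D m).lam‖ := norm_pos_iff.mpr h0
  have e : (D m).v x = ((D m).F (D m).k x - x) / (D m).lam := rfl
  rw [e, norm_div, div_le_iff₀ h3]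
  calc ‖(D m).F (D m).k x - x‖ ≤ C₁ * (C'' * ‖(D m).lam‖) := h1
    _ = C₁ * C'' * ‖(D m).lam‖ := by ring

theorem VLM (hDSP : XPL.DSP_stmt) (hB : GBA_stmt) (hM : V3.TMO_stmt) (hTDE : V3.TDE_stmt)
    (hTUL : V3.TUL_stmt) : VLM_stmt := by
  intro n C C' C'' D hS
  have hV := VLM_bd hDSP n C C' C'' D hS
  have hlam : ∀ m, (D m).lam ≠ 0 := by
    intro m h
    have h2 := (hS.sa.ga m).lam0
    rw [h] at h2
    exact lt_irrefl 0 h2
  have hdv : ∀ m, Differentiable ℂ (D m).v := fun m => by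
    obtain ⟨-, -, -, -, -, -, -, -, -, -, -, -, -, -, -, -, -, h, -⟩ := hB n C (D m) (hS.ok m)
    exact h
  have hvp : ∀ m l, (D m).v ((D m).p l) = 0 ∧
      deriv (D m).v ((D m).p l) = (Complex.exp (D m).lam - 1) / (D m).lam := fun m => by
    obtain ⟨-, -, -, -, -, -, -, -, -, h, -⟩ := hB n C (D m) (hS.ok m)
    exact h
  have hev : ∀ x ∈ (univ : Set ℂ), V3.EvHol (hyperfilter ℕ) (fun m => (D m).v) x := fun x _ =>
    ⟨1, one_pos, Eventually.of_forall fun m => (hdv m).differentiableOn⟩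
  obtain ⟨F, hFd, hFl⟩ := hM (hyperfilter ℕ) (fun m => (D m).v) univ isOpen_univ (by
    intro x _
    obtain ⟨C, hC⟩ := hV (‖x‖ + 1) (by positivity)
    refine ⟨1, one_pos, C, ?_⟩
    refine Eventually.mono (f := ((hyperfilter ℕ : Ultrafilter ℕ) : Filter ℕ)) hC fun m hm =>
      ⟨(hdv m).differentiableOn, fun y hy => hm y ?_⟩
    rw [mem_ball, dist_zero_right]
    rw [mem_ball, dist_eq_norm] at hy
    calc ‖y‖ = ‖(y - x) + x‖ := by rw [sub_add_cancel]
      _ ≤ ‖y - x‖ + ‖x‖ := norm_add_le _ _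
      _ < ‖x‖ + 1 := by linarith)
  have hFl' : TendstoLocallyUniformlyOn (fun m => (D m).v) F UF univ := hFl
  have hpt : ∀ x, Tendsto (fun m => (D m).v x) UF (𝓝 (F x)) := fun x =>
    hFl'.tendsto_at (mem_univ x)
  have hvin : vin D = F := by
    funext x
    exact (hpt x).limUnder_eq
  obtain ⟨-, hdl, -⟩ := hTDE (hyperfilter ℕ) (fun m => (D m).v) F univ isOpen_univ hev hFl
  have hdl' : TendstoLocallyUniformlyOn (fun m => deriv (D m).v) (deriv F) UF univ := hdl
  have hFdiff : Differentiable ℂ F := differentiableOn_univ.mp hFd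
  have hF'diff : Differentiable ℂ (deriv F) :=
    differentiableOn_univ.mp (hFd.deriv isOpen_univ)
  rw [hvin]
  refine ⟨hFdiff, fun K hK => ⟨?_, ?_⟩, fun p hp => ?_, ?_, hV⟩
  · exact (tendstoLocallyUniformlyOn_iff_forall_isCompact isOpen_univ).mp hFl' K (subset_univ K) hK
  · exact (tendstoLocallyUniformlyOn_iff_forall_isCompact isOpen_univ).mp hdl' K (subset_univ K) hK
  · -- nearest labels
    have hmin : ∀ m, ∃ l : ZMod (D m).k, ∀ l' : ZMod (D m).k,
        ‖(D m).p l - p‖ ≤ ‖(D m).p l' - p‖ := fun m =>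
      Finite.exists_min fun l : ZMod (D m).k => ‖(D m).p l - p‖
    choose l hl using hmin
    have hq : Tendsto (fun m => (D m).p (l m)) UF (𝓝 p) := by
      rw [Metric.tendsto_nhds]
      intro ε hε
      refine (hp ε hε).mono fun m hm => ?_
      obtain ⟨l', hl'⟩ := hm
      rw [dist_eq_norm]
      exact (hl m l').trans_lt hl'
    have hq' : Tendsto (fun m => (D m).p (l m)) UF (𝓝[univ] p) := by rwa [nhdsWithin_univ]
    have c1 := hFl'.tendsto_comp (hFdiff.continuous.continuousWithinAt) (mem_univ p) hq'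
    have c2 := hdl'.tendsto_comp (hF'diff.continuous.continuousWithinAt) (mem_univ p) hq'
    constructor
    · have e : (fun m => (D m).v ((D m).p (l m))) = fun _ => 0 := by
        funext m
        exact (hvp m (l m)).1
      rw [e] at c1
      exact tendsto_nhds_unique c1 tendsto_const_nhds
    · have e : (fun m => deriv (D m).v ((D m).p (l m))) =
          fun m => (Complex.exp (D m).lam - 1) / (D m).lam := by
        funext m
        exact (hvp m (l m)).2
      rw [e] at c2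
      exact tendsto_nhds_unique c2 (VLM_exp (fun m => (D m).lam) hlam
        (hS.sa.lim.mono_left V3S.UF_le))
  · -- the normalisation
    choose x hx1 hx2 using fun m => (hS.sa.ga m).far
    obtain ⟨X, hX⟩ := hTUL (hyperfilter ℕ) x 1 (Eventually.of_forall fun m => (hx1 m).le)
    have hX' : Tendsto x UF (𝓝 X) := hX.2
    have hXn : ‖X‖ = 1 := by
      have h1 : Tendsto (fun m => ‖x m‖) UF (𝓝 ‖X‖) := hX'.norm
      have e : (fun m => ‖x m‖) = fun _ => (1 : ℝ) := funext hx1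
      rw [e] at h1
      exact (tendsto_nhds_unique h1 tendsto_const_nhds)
    have hXu : Tendsto x UF (𝓝[univ] X) := by rwa [nhdsWithin_univ]
    have c1 := hFl'.tendsto_comp (hFdiff.continuous.continuousWithinAt) (mem_univ X) hXu
    have c2 : Tendsto (fun m => ‖(D m).v (x m) - x m‖) UF (𝓝 ‖F X - X‖) := (c1.sub hX').norm
    have e : (fun m => ‖(D m).v (x m) - x m‖) = fun _ => (1 / 10 : ℝ) := funext hx2
    rw [e] at c2
    exact ⟨X, hXn, tendsto_nhds_unique c2 tendsto_const_nhds⟩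

end XPG
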